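import Pool.Agent.R42.E6.Graph

/-!
# Regularity, transitivity, connectivity, two ends
-/

namespace Pool.Agent.R42.E6

theorem layAdj_iff (a : ℕ) (u v : VV a) : LayAdj a u v ↔
    u.2.1 = v.2.1 ∧ u.2.2 = v.2.2 ∧ ∃ z : ℤ, Sm z ∧ v.1 = u.1 + z * p a u.2.1 := Iff.rfl

theorem succ_ne (a : ℕ) (ha : 2 ≤ a) (j : ZMod (MM a)) : j + 1 ≠ j := by
  intro h
  exact one_ne a ha 1 (by norm_num) (by norm_num) (by push_cast; linear_combination h)

theorem pred_ne (a : ℕ) (ha : 2 ≤ a) (j : ZMod (MM a)) : j - 1 ≠ j := by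
  intro h
  exact one_ne a ha 1 (by norm_num) (by norm_num) (by push_cast; linear_combination -h)

theorem succ_ne_pred (a : ℕ) (ha : 2 ≤ a) (j : ZMod (MM a)) : j + 1 ≠ j - 1 := by
  intro h
  exact one_ne a ha 2 (by norm_num) (by norm_num) (by push_cast; linear_combination h)

theorem Sm.abs_le {z : ℤ} (h : Sm z) : |z| ≤ 2 := by
  rcases h with rfl | rfl | rfl | rfl <;> norm_num

theorem regular (a : ℕ) (ha : 2 ≤ a) : Regular (Gr a ha) 8 := by
  rintro ⟨x, j, k⟩
  have hN : (Gr a ha).neighborSet (x, j, k) =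
      ((fun z : ℤ => ((x + z * p a j, j, k) : VV a)) '' {z | Sm z}) ∪
      (((fun j' : ZMod (MM a) => ((x, j', k) : VV a)) '' {j + 1, j - 1}) ∪
      ((fun k' : ℤ => ((x, j, k') : VV a)) '' {k + 1, k - 1})) := by
    ext ⟨x', j', k'⟩
    simp only [SimpleGraph.mem_neighborSet, Gr, LayAdj, OutAdj, Set.mem_union, Set.mem_image,
      Set.mem_setOf_eq, Set.mem_insert_iff, Set.mem_singleton_iff, Prod.mk.injEq]
    constructor
    · rintro (⟨h1, h2, z, hz, h3⟩ | ⟨h1, ⟨h2, h3 | h3⟩ | ⟨h2, h3 | h3⟩⟩)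
      · exact Or.inl ⟨z, hz, h3.symm, h1, h2⟩
      · exact Or.inr (Or.inl ⟨j', Or.inl h3, h1, rfl, h2⟩)
      · exact Or.inr (Or.inl ⟨j', Or.inr (by rw [h3]; ring), h1, rfl, h2⟩)
      · exact Or.inr (Or.inr ⟨k', Or.inl h3, h1, h2, rfl⟩)
      · exact Or.inr (Or.inr ⟨k', Or.inr (by rw [h3]; ring), h1, h2, rfl⟩)
    · rintro (⟨z, hz, h3, h1, h2⟩ | ⟨j'', h3 | h3, h1, h4, h2⟩ | ⟨k'', h3 | h3, h1, h4, h2⟩)
      · exact Or.inl ⟨h1, h2, z, hz, h3.symm⟩
      · exact Or.inr ⟨h1, Or.inl ⟨h2, Or.inl (by rw [← h4, h3])⟩⟩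
      · exact Or.inr ⟨h1, Or.inl ⟨h2, Or.inr (by rw [← h4, h3]; ring)⟩⟩
      · exact Or.inr ⟨h1, Or.inr ⟨h4, Or.inl (by rw [← h2, h3])⟩⟩
      · exact Or.inr ⟨h1, Or.inr ⟨h4, Or.inr (by rw [← h2, h3]; ring)⟩⟩
  rw [hN]
  have hA : ((fun z : ℤ => ((x + z * p a j, j, k) : VV a)) '' {z | Sm z}).encard = 4 := by
    rw [Set.InjOn.encard_image]
    · have hS : {z : ℤ | Sm z} = (({1, -1, 2, -2} : Finset ℤ) : Set ℤ) := by
        ext z
        simp [Sm]
      rw [hS, Set.encard_coe_eq_coe_finsetCard]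
      rfl
    · intro z hz w hw h
      simp only [Prod.mk.injEq, and_true, add_right_inj] at h
      have h1 := Sm.abs_le hz
      have h2 := Sm.abs_le hw
      refine small_eq a ha z w ?_ _ (isUnit_p a j) h
      rw [abs_le] at *
      omega
  have hB : ((fun j' : ZMod (MM a) => ((x, j', k) : VV a)) '' {j + 1, j - 1}).encard = 2 := by
    rw [Function.Injective.encard_image, Set.encard_pair]
    · exact succ_ne_pred a ha j
    · intro y z h
      simpa using h
  have hC : ((fun k' : ℤ => ((x, j, k') : VV a)) '' {k + 1, k - 1}).encard = 2 := by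
    rw [Function.Injective.encard_image, Set.encard_pair]
    · omega
    · intro y z h
      simpa using h
  rw [Set.encard_union_eq, Set.encard_union_eq, hA, hB, hC]
  · norm_num
  · rw [Set.disjoint_left]
    rintro _ ⟨j', hj', rfl⟩ ⟨k', hk', h⟩
    simp only [Prod.mk.injEq, Set.mem_insert_iff, Set.mem_singleton_iff] at *
    omega
  · rw [Set.disjoint_left]
    rintro _ ⟨z, hz, rfl⟩ h
    rcases h with ⟨j', hj', h⟩ | ⟨k', hk', h⟩
    · simp only [Prod.mk.injEq, Set.mem_insert_iff, Set.mem_singleton_iff] at *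
      rcases hj' with hj' | hj'
      · exact succ_ne a ha j (by rw [← hj']; exact h.2.1)
      · exact pred_ne a ha j (by rw [← hj']; exact h.2.1)
    · simp only [Prod.mk.injEq, Set.mem_insert_iff, Set.mem_singleton_iff] at *
      omega

/-! ### automorphisms -/

theorem mul_cancel_p (a : ℕ) (i : ZMod (MM a)) {x y : ZMod (NN a)} (h : p a i * x = p a i * y) :
    x = y := (isUnit_p a i).mul_left_cancel h

/-- The automorphisms `(x,j,k) ↦ (2^i x + b, j + i, k + t)`. -/
noncomputable def auto (a : ℕ) (ha : 2 ≤ a) (i : ZMod (MM a)) (b : ZMod (NN a)) (t : ℤ) :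
    Gr a ha ≃g Gr a ha where
  toFun u := (p a i * u.1 + b, u.2.1 + i, u.2.2 + t)
  invFun u := ((p a i)⁻¹ * (u.1 - b), u.2.1 - i, u.2.2 - t)
  left_inv := by
    rintro ⟨x, j, k⟩
    have h := ZMod.mul_inv_of_unit (p a i) (isUnit_p a i)
    refine Prod.ext ?_ (Prod.ext ?_ ?_)
    · show (p a i)⁻¹ * (p a i * x + b - b) = x
      linear_combination x * h
    · show j + i - i = j
      ring
    · show k + t - t = k
      ring
  right_inv := by
    rintro ⟨x, j, k⟩
    have h := ZMod.mul_inv_of_unit (p a i) (isUnit_p a i)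
    refine Prod.ext ?_ (Prod.ext ?_ ?_)
    · show p a i * ((p a i)⁻¹ * (x - b)) + b = x
      linear_combination (x - b) * h
    · show j - i + i = j
      ring
    · show k - t + t = k
      ring
  map_rel_iff' := by
    rintro ⟨x, j, k⟩ ⟨x', j', k'⟩
    show (LayAdj a (p a i * x + b, j + i, k + t) (p a i * x' + b, j' + i, k' + t) ∨
      OutAdj a (p a i * x + b, j + i, k + t) (p a i * x' + b, j' + i, k' + t)) ↔
      (LayAdj a (x, j, k) (x', j', k') ∨ OutAdj a (x, j, k) (x', j', k'))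
    refine or_congr ?_ ?_
    · simp only [LayAdj, add_left_inj]
      refine and_congr_right fun _ => and_congr_right fun _ => ?_
      have hp := p_add a i j
      rw [add_comm i j] at hp
      constructor
      · rintro ⟨z, hz, h⟩
        rcases hp with hp | hp
        · refine ⟨z, hz, mul_cancel_p a i ?_⟩
          rw [hp] at h
          linear_combination h
        · refine ⟨-z, hz.neg, mul_cancel_p a i ?_⟩
          rw [hp] at h
          push_cast
          linear_combination h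
      · rintro ⟨z, hz, h⟩
        rcases hp with hp | hp
        · refine ⟨z, hz, ?_⟩
          rw [hp, h]
          ring
        · refine ⟨-z, hz.neg, ?_⟩
          rw [hp, h]
          push_cast
          ring
    · simp only [OutAdj, add_left_inj]
      refine and_congr ?_ (or_congr ?_ ?_)
      · constructor
        · intro h
          exact mul_cancel_p a i h
        · intro h
          rw [h]
      · refine and_congr_right fun _ => or_congr ?_ ?_
        · constructor <;> intro h <;> linear_combination h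
        · constructor <;> intro h <;> linear_combination h
      · refine and_congr_right fun _ => or_congr ?_ ?_
        · constructor <;> intro h <;> linear_combination h
        · constructor <;> intro h <;> linear_combination h

theorem vertexTransitive (a : ℕ) (ha : 2 ≤ a) : VertexTransitive (Gr a ha) := by
  rintro ⟨x, j, k⟩ ⟨x', j', k'⟩
  refine ⟨auto a ha (j' - j) (x' - p a (j' - j) * x) (k' - k), ?_⟩
  refine Prod.ext ?_ (Prod.ext ?_ ?_)
  · show p a (j' - j) * x + (x' - p a (j' - j) * x) = x'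
    ring
  · show j + (j' - j) = j'
    ring
  · show k + (k' - k) = k'
    ring

/-! ### connectivity -/

/-- joined by a walk inside `P` -/
def CW {V : Type} (G : SimpleGraph V) (P : V → Prop) (u v : V) : Prop :=
  ∃ w : G.Walk u v, ∀ x ∈ w.support, P x

theorem CW.refl {V : Type} {G : SimpleGraph V} {P : V → Prop} {u : V} (h : P u) : CW G P u u := by
  refine ⟨SimpleGraph.Walk.nil, ?_⟩
  intro x hx
  simp only [SimpleGraph.Walk.support_nil, List.mem_singleton] at hx
  rw [hx]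
  exact h

theorem CW.symm {V : Type} {G : SimpleGraph V} {P : V → Prop} {u v : V} (h : CW G P u v) :
    CW G P v u := by
  obtain ⟨w, hw⟩ := h
  refine ⟨w.reverse, fun x hx => hw x ?_⟩
  simpa using hx

theorem CW.trans {V : Type} {G : SimpleGraph V} {P : V → Prop} {u v w : V} (h : CW G P u v)
    (h' : CW G P v w) : CW G P u w := by
  obtain ⟨w1, hw1⟩ := h
  obtain ⟨w2, hw2⟩ := h'
  refine ⟨w1.append w2, fun x hx => ?_⟩
  rw [SimpleGraph.Walk.mem_support_append_iff] at hx
  rcases hx with hx | hx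
  · exact hw1 x hx
  · exact hw2 x hx

theorem CW.edge {V : Type} {G : SimpleGraph V} {P : V → Prop} {u v : V} (h : G.Adj u v)
    (hu : P u) (hv : P v) : CW G P u v := by
  refine ⟨SimpleGraph.Walk.cons h SimpleGraph.Walk.nil, ?_⟩
  intro x hx
  simp only [SimpleGraph.Walk.support_cons, SimpleGraph.Walk.support_nil, List.mem_cons,
    List.not_mem_nil, or_false] at hx
  rcases hx with rfl | rfl
  · exact hu
  · exact hv

theorem conn_x (a : ℕ) (ha : 2 ≤ a) (I : ℤ → Prop) (x x' : ZMod (NN a)) (j : ZMod (MM a)) (k : ℤ)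
    (hk : I k) : CW (Gr a ha) (fun u => I u.2.2) (x, j, k) (x', j, k) := by
  have h1 : ∀ t : ℕ, CW (Gr a ha) (fun u => I u.2.2) (x, j, k) (x + t * p a j, j, k) := by
    intro t
    induction t with
    | zero =>
      have : x + ((0 : ℕ) : ZMod (NN a)) * p a j = x := by push_cast; ring
      rw [this]
      exact CW.refl hk
    | succ t ih =>
      refine ih.trans (CW.edge ?_ hk hk)
      left
      refine ⟨rfl, rfl, 1, Or.inl rfl, ?_⟩
      show x + ((t + 1 : ℕ) : ZMod (NN a)) * p a j = x + t * p a j + ((1 : ℤ) : ZMod (NN a)) * p a j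
      push_cast
      ring
  have h2 := h1 (((p a j)⁻¹ * (x' - x)).val)
  have h3 : ((((p a j)⁻¹ * (x' - x)).val : ℕ) : ZMod (NN a)) = (p a j)⁻¹ * (x' - x) :=
    ZMod.natCast_zmod_val _
  rw [h3] at h2
  have h4 := ZMod.mul_inv_of_unit (p a j) (isUnit_p a j)
  have h5 : x + (p a j)⁻¹ * (x' - x) * p a j = x' := by
    linear_combination (x' - x) * h4
  rwa [h5] at h2

theorem conn_j (a : ℕ) (ha : 2 ≤ a) (I : ℤ → Prop) (x : ZMod (NN a)) (j j' : ZMod (MM a)) (k : ℤ)
    (hk : I k) : CW (Gr a ha) (fun u => I u.2.2) (x, j, k) (x, j', k) := by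
  have h1 : ∀ t : ℕ, CW (Gr a ha) (fun u => I u.2.2) (x, j, k) (x, j + t, k) := by
    intro t
    induction t with
    | zero =>
      have : j + ((0 : ℕ) : ZMod (MM a)) = j := by push_cast; ring
      rw [this]
      exact CW.refl hk
    | succ t ih =>
      refine ih.trans (CW.edge ?_ hk hk)
      right
      refine ⟨rfl, Or.inl ⟨rfl, Or.inl ?_⟩⟩
      show j + ((t + 1 : ℕ) : ZMod (MM a)) = j + t + 1
      push_cast
      ring
  have h2 := h1 ((j' - j).val)
  have h3 : (((j' - j).val : ℕ) : ZMod (MM a)) = j' - j := ZMod.natCast_zmod_val _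
  rw [h3] at h2
  have h5 : j + (j' - j) = j' := by ring
  rwa [h5] at h2

theorem conn_k (a : ℕ) (ha : 2 ≤ a) (I : ℤ → Prop) (x : ZMod (NN a)) (j : ZMod (MM a)) (k : ℤ)
    (t : ℕ) (h : ∀ l, k ≤ l → l ≤ k + t → I l) :
    CW (Gr a ha) (fun u => I u.2.2) (x, j, k) (x, j, k + t) := by
  induction t with
  | zero =>
    have : k + ((0 : ℕ) : ℤ) = k := by push_cast; ring
    rw [this]
    exact CW.refl (h k (le_refl _) (by omega))
  | succ t ih =>
    refine (ih ?_).trans (CW.edge ?_ ?_ ?_)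
    · intro l h1 h2
      exact h l h1 (by push_cast; omega)
    · right
      refine ⟨rfl, Or.inr ⟨rfl, Or.inl ?_⟩⟩
      show k + ((t + 1 : ℕ) : ℤ) = k + t + 1
      push_cast
      ring
    · exact h (k + t) (by omega) (by push_cast; omega)
    · exact h (k + ((t + 1 : ℕ) : ℤ)) (by omega) (by omega)

theorem conn_all (a : ℕ) (ha : 2 ≤ a) (I : ℤ → Prop)
    (hI : ∀ k k' l, I k → I k' → k ≤ l → l ≤ k' → I l) (u v : VV a) (hu : I u.2.2)
    (hv : I v.2.2) : CW (Gr a ha) (fun u => I u.2.2) u v := by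
  have main : ∀ u v : VV a, I u.2.2 → I v.2.2 → u.2.2 ≤ v.2.2 →
      CW (Gr a ha) (fun u => I u.2.2) u v := by
    rintro ⟨x, j, k⟩ ⟨x', j', k'⟩ hu hv hle
    obtain ⟨t, ht⟩ := Int.eq_ofNat_of_zero_le (sub_nonneg.mpr hle)
    refine ((conn_x a ha I x x' j k hu).trans (conn_j a ha I x' j j' k hu)).trans ?_
    have hk : k' = k + t := by
      have : k' - k = t := ht
      omega
    have h := conn_k a ha I x' j' k t (fun l h1 h2 => hI k k' l hu hv h1 (by omega))
    rwa [← hk] at h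
  rcases le_total u.2.2 v.2.2 with h | h
  · exact main u v hu hv h
  · exact (main v u hv hu h).symm

theorem connected (a : ℕ) (ha : 2 ≤ a) : (Gr a ha).Connected := by
  haveI : Nonempty (VV a) := ⟨(0, 0, 0)⟩
  refine ⟨fun u v => ?_⟩
  obtain ⟨w, -⟩ := conn_all a ha (fun _ => True) (fun _ _ _ _ _ _ _ => trivial) u v trivial trivial
  exact ⟨w⟩

/-! ### two ends -/

theorem adj_k (a : ℕ) (ha : 2 ≤ a) {u v : VV a} (h : (Gr a ha).Adj u v) :
    |u.2.2 - v.2.2| ≤ 1 := by
  rcases h with ⟨h1, h2, -⟩ | ⟨-, ⟨h2, -⟩ | ⟨-, h2 | h2⟩⟩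
  · rw [h2]; simp
  · rw [h2]; simp
  · rw [h2, abs_le]; omega
  · rw [h2, abs_le]; omega

theorem no_cross (a : ℕ) (ha : 2 ≤ a) {u v : VV a} (w : (Gr a ha).Walk u v)
    (hw : ∀ x ∈ w.support, x.2.2 ≠ 0) (hu : 0 < u.2.2) : 0 < v.2.2 := by
  induction w with
  | nil => exact hu
  | cons h w ih =>
    rename_i u' v' w'
    have h1 := adj_k a ha h
    have h2 : v'.2.2 ≠ 0 := hw v' (by simp)
    apply ih
    · intro x hx
      exact hw x (by simp [hx])
    · rw [abs_le] at h1
      omega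

/-- The positive ray. -/
def rayP (a : ℕ) (ha : 2 ≤ a) : Ray (Gr a ha) where
  toFun n := (0, 0, (n : ℤ))
  inj := by
    intro m n h
    simp only [Prod.mk.injEq, true_and] at h
    exact_mod_cast h
  adj := by
    intro n
    right
    refine ⟨rfl, Or.inr ⟨rfl, Or.inl ?_⟩⟩
    show ((n + 1 : ℕ) : ℤ) = n + 1
    push_cast
    ring

/-- The negative ray. -/
def rayM (a : ℕ) (ha : 2 ≤ a) : Ray (Gr a ha) where
  toFun n := (0, 0, -(n : ℤ))
  inj := by
    intro m n h
    simp only [Prod.mk.injEq, true_and, neg_inj] at h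
    exact_mod_cast h
  adj := by
    intro n
    right
    refine ⟨rfl, Or.inr ⟨rfl, Or.inr ?_⟩⟩
    show -(n : ℤ) = -((n + 1 : ℕ) : ℤ) + 1
    push_cast
    ring

theorem slab_finite (a : ℕ) (K : ℤ) : {u : VV a | |u.2.2| ≤ K}.Finite := by
  have h : {u : VV a | |u.2.2| ≤ K} ⊆
      (Set.univ : Set (ZMod (NN a))) ×ˢ ((Set.univ : Set (ZMod (MM a))) ×ˢ (Set.Icc (-K) K)) := by
    rintro ⟨x, j, k⟩ hu
    simp only [Set.mem_setOf_eq, abs_le] at hu
    simp only [Set.mem_prod, Set.mem_univ, true_and, Set.mem_Icc]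
    exact hu
  exact (Set.Finite.prod Set.finite_univ (Set.Finite.prod Set.finite_univ
    (Set.finite_Icc _ _))).subset h

theorem ray_pos (a : ℕ) (ha : 2 ≤ a) (r : Ray (Gr a ha)) (n0 : ℕ)
    (h0 : ∀ n ≥ n0, (r.toFun n).2.2 ≠ 0) (hp : 0 < (r.toFun n0).2.2) :
    ∀ n ≥ n0, 0 < (r.toFun n).2.2 := by
  intro n hn
  induction n, hn using Nat.le_induction with
  | base => exact hp
  | succ n hn ih =>
    have h1 := adj_k a ha (r.adj n)
    have h2 := h0 (n + 1) (by omega)
    rw [abs_le] at h1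
    omega

theorem ray_neg (a : ℕ) (ha : 2 ≤ a) (r : Ray (Gr a ha)) (n0 : ℕ)
    (h0 : ∀ n ≥ n0, (r.toFun n).2.2 ≠ 0) (hp : (r.toFun n0).2.2 < 0) :
    ∀ n ≥ n0, (r.toFun n).2.2 < 0 := by
  intro n hn
  induction n, hn using Nat.le_induction with
  | base => exact hp
  | succ n hn ih =>
    have h1 := adj_k a ha (r.adj n)
    have h2 := h0 (n + 1) (by omega)
    rw [abs_le] at h1
    omega

theorem bounded_of_finite (a : ℕ) (S : Set (VV a)) (hS : S.Finite) :
    ∃ K : ℤ, 0 ≤ K ∧ ∀ u ∈ S, |u.2.2| ≤ K := by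
  obtain ⟨K, hK⟩ := (hS.image (fun u : VV a => |u.2.2|)).bddAbove
  refine ⟨max K 0, le_max_right _ _, fun u hu => ?_⟩
  exact le_trans (hK ⟨u, hu, rfl⟩) (le_max_left _ _)

theorem equivP (a : ℕ) (ha : 2 ≤ a) (r : Ray (Gr a ha)) (n0 : ℕ)
    (hp : ∀ n ≥ n0, 0 < (r.toFun n).2.2) : RayEquiv (Gr a ha) r (rayP a ha) := by
  intro S hS
  obtain ⟨K, hK0, hK⟩ := bounded_of_finite a S hS
  obtain ⟨n1, hn1⟩ := eventually_not_mem r _ (slab_finite a K)
  refine ⟨max (max n0 n1) (K.toNat + 1), fun i hi j hj => ?_⟩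
  have hi0 : n0 ≤ i := le_trans (le_trans (le_max_left _ _) (le_max_left _ _)) hi
  have hi1 : n1 ≤ i := le_trans (le_trans (le_max_right _ _) (le_max_left _ _)) hi
  have hj1 : K.toNat + 1 ≤ j := le_trans (le_max_right _ _) hj
  have h1 := hp i hi0
  have h2 := hn1 i hi1
  simp only [Set.mem_setOf_eq, not_le] at h2
  rw [abs_of_pos h1] at h2
  obtain ⟨w, hw⟩ := conn_all a ha (fun k => K < k) (fun k k' l h1 _ h3 _ => by omega)
    (r.toFun i) ((rayP a ha).toFun j) h2 (by show K < (j : ℤ); omega)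
  refine ⟨w, fun v hv hvS => ?_⟩
  have h3 : K < v.2.2 := hw v hv
  have h4 := hK v hvS
  rw [abs_le] at h4
  omega

theorem equivM (a : ℕ) (ha : 2 ≤ a) (r : Ray (Gr a ha)) (n0 : ℕ)
    (hp : ∀ n ≥ n0, (r.toFun n).2.2 < 0) : RayEquiv (Gr a ha) r (rayM a ha) := by
  intro S hS
  obtain ⟨K, hK0, hK⟩ := bounded_of_finite a S hS
  obtain ⟨n1, hn1⟩ := eventually_not_mem r _ (slab_finite a K)
  refine ⟨max (max n0 n1) (K.toNat + 1), fun i hi j hj => ?_⟩
  have hi0 : n0 ≤ i := le_trans (le_trans (le_max_left _ _) (le_max_left _ _)) hi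
  have hi1 : n1 ≤ i := le_trans (le_trans (le_max_right _ _) (le_max_left _ _)) hi
  have hj1 : K.toNat + 1 ≤ j := le_trans (le_max_right _ _) hj
  have h1 := hp i hi0
  have h2 := hn1 i hi1
  simp only [Set.mem_setOf_eq, not_le] at h2
  rw [abs_of_neg h1] at h2
  obtain ⟨w, hw⟩ := conn_all a ha (fun k => k < -K) (fun k k' l _ h2 _ h4 => by omega)
    (r.toFun i) ((rayM a ha).toFun j) (by omega) (by show -(j : ℤ) < -K; omega)
  refine ⟨w, fun v hv hvS => ?_⟩
  have h3 : v.2.2 < -K := hw v hv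
  have h4 := hK v hvS
  rw [abs_le] at h4
  omega

theorem not_equiv (a : ℕ) (ha : 2 ≤ a) : ¬ RayEquiv (Gr a ha) (rayP a ha) (rayM a ha) := by
  intro h
  obtain ⟨n, hn⟩ := h {u | |u.2.2| ≤ 0} (slab_finite a 0)
  obtain ⟨w, hw⟩ := hn (n + 1) (by omega) (n + 1) (by omega)
  have h1 := no_cross a ha w (fun x hx hx0 => hw x hx (by simp [hx0]))
    (by show (0 : ℤ) < ((n + 1 : ℕ) : ℤ); omega)
  have h2 : (0 : ℤ) < -((n + 1 : ℕ) : ℤ) := h1
  omega

theorem twoEnded (a : ℕ) (ha : 2 ≤ a) : TwoEnded (Gr a ha) := by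
  unfold TwoEnded
  have key : Nat.card (Ends (Gr a ha)) = 2 := by
    rw [Nat.card_eq_two_iff]
    refine ⟨Quotient.mk (raySetoid (Gr a ha)) (rayP a ha),
      Quotient.mk (raySetoid (Gr a ha)) (rayM a ha), ?_, ?_⟩
    · intro h
      exact not_equiv a ha (Quotient.exact h)
    · ext q
      simp only [Set.mem_insert_iff, Set.mem_singleton_iff, Set.mem_univ, iff_true]
      induction q using Quotient.inductionOn with
      | h r =>
        obtain ⟨n0, h0⟩ := eventually_not_mem r _ (slab_finite a 0)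
        have h0' : ∀ n ≥ n0, (r.toFun n).2.2 ≠ 0 := by
          intro n hn h
          exact h0 n hn (by simp [h])
        rcases lt_or_gt_of_ne (h0' n0 (le_refl _)) with h | h
        · right
          exact Quotient.sound (equivM a ha r n0 (ray_neg a ha r n0 h0' h))
        · left
          exact Quotient.sound (equivP a ha r n0 (ray_pos a ha r n0 h0' h))
  have hfin : Finite (Ends (Gr a ha)) := Nat.finite_of_card_ne_zero (by omega)
  rw [ENat.card_eq_coe_natCard, key]
  rfl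

end Pool.Agent.R42.E6
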