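import Pool.Agent.R42.E6.Basic

/-!
# Classification of the automorphisms
-/

namespace Pool.Agent.R42.E6

variable {a : ℕ} {ha : 2 ≤ a}

/-- layer edges lie in a triangle -/
theorem lay_triangle (ha : 2 ≤ a) {u v : VV a} (h : LayAdj a u v) :
    ∃ w, (Gr a ha).Adj u w ∧ (Gr a ha).Adj v w := by
  obtain ⟨x, j, k⟩ := u
  obtain ⟨x', j', k'⟩ := v
  obtain ⟨h1, h2, z, hz, h3⟩ := h
  simp only at h1 h2 h3
  subst h1 h2
  rcases hz with rfl | rfl | rfl | rfl
  · refine ⟨(x + 2 * p a j, j, k), Or.inl ⟨rfl, rfl, 2, by unfold Sm; omega, ?_⟩,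
      Or.inl ⟨rfl, rfl, 1, by unfold Sm; omega, ?_⟩⟩
    · push_cast; ring
    · rw [h3]; push_cast; ring
  · refine ⟨(x - 2 * p a j, j, k), Or.inl ⟨rfl, rfl, -2, by unfold Sm; omega, ?_⟩,
      Or.inl ⟨rfl, rfl, -1, by unfold Sm; omega, ?_⟩⟩
    · push_cast; ring
    · rw [h3]; push_cast; ring
  · refine ⟨(x + p a j, j, k), Or.inl ⟨rfl, rfl, 1, by unfold Sm; omega, ?_⟩,
      Or.inl ⟨rfl, rfl, -1, by unfold Sm; omega, ?_⟩⟩
    · push_cast; ring
    · rw [h3]; push_cast; ring
  · refine ⟨(x - p a j, j, k), Or.inl ⟨rfl, rfl, -1, by unfold Sm; omega, ?_⟩,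
      Or.inl ⟨rfl, rfl, 1, by unfold Sm; omega, ?_⟩⟩
    · push_cast; ring
    · rw [h3]; push_cast; ring

/-- a layer edge has distinct first coordinates -/
theorem lay_ne (ha : 2 ≤ a) {u v : VV a} (h : LayAdj a u v) : u.1 ≠ v.1 := by
  obtain ⟨h1, h2, z, hz, h3⟩ := h
  intro h4
  have h5 : (z : ZMod (NN a)) * p a u.2.1 = 0 := by
    rw [← h4] at h3
    linear_combination -h3
  have h6 := Sm.abs_le hz
  have := small_mul a ha z (by omega) _ (isUnit_p a _) h5
  unfold Sm at hz
  omega

/-- other edges do not lie in a triangle -/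
theorem out_no_triangle (ha : 2 ≤ a) {u v : VV a} (h : OutAdj a u v) (w : VV a)
    (h1 : (Gr a ha).Adj u w) (h2 : (Gr a ha).Adj v w) : False := by
  have hc : ∀ n : ℕ, 0 < n → n < 4 → ((n : ℕ) : ZMod (MM a)) ≠ 0 := one_ne a ha
  have c1 : (1 : ZMod (MM a)) ≠ 0 := by have := hc 1 (by norm_num) (by norm_num); simpa using this
  have c2 : (2 : ZMod (MM a)) ≠ 0 := by have := hc 2 (by norm_num) (by norm_num); simpa using this
  have c3 : (3 : ZMod (MM a)) ≠ 0 := by have := hc 3 (by norm_num) (by norm_num); simpa using this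
  obtain ⟨hx, h⟩ := h
  rcases h1 with h1 | ⟨h1x, h1⟩ <;> rcases h2 with h2 | ⟨h2x, h2⟩
  · -- both layer: same layer for u and v
    obtain ⟨a1, a2, -⟩ := h1
    obtain ⟨b1, b2, -⟩ := h2
    have e1 : u.2.1 = v.2.1 := a1.trans b1.symm
    have e2 : u.2.2 = v.2.2 := a2.trans b2.symm
    rcases h with ⟨-, h | h⟩ | ⟨-, h | h⟩
    · exact c1 (by linear_combination -h - e1)
    · exact c1 (by linear_combination -h + e1)
    · omega
    · omega
  · exact lay_ne ha h1 (hx.trans h2x)
  · exact lay_ne ha h2 (hx.symm.trans h1x)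
  · rcases h with ⟨hk, h | h⟩ | ⟨hj, h | h⟩ <;>
    rcases h1 with ⟨h1k, h1 | h1⟩ | ⟨h1j, h1 | h1⟩ <;>
    rcases h2 with ⟨h2k, h2 | h2⟩ | ⟨h2j, h2 | h2⟩ <;>
    first
    | omega
    | exact c1 (by linear_combination -h + h2j - h1j)
    | exact c1 (by linear_combination -h + h1j - h2j)
    | exact c1 (by linear_combination -h2 - h1j + hj)
    | exact c1 (by linear_combination -h2 - hj + h1j)
    | exact c1 (by linear_combination -h1 - hj - h2j)
    | exact c1 (by linear_combination -h1 + hj + h2j)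
    | exact c1 (by linear_combination h1 - h2 - h)
    | exact c1 (by linear_combination h1 + h2 - h)
    | exact c1 (by linear_combination -h1 - h2 - h)
    | exact c1 (by linear_combination -h1 + h2 - h)
    | exact c1 (by linear_combination h1 - h2 + h)
    | exact c1 (by linear_combination h1 + h2 + h)
    | exact c1 (by linear_combination -h1 - h2 + h)
    | exact c1 (by linear_combination -h1 + h2 + h)
    | exact c3 (by linear_combination h1 - h2 - h)
    | exact c3 (by linear_combination h1 + h2 - h)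
    | exact c3 (by linear_combination -h1 - h2 - h)
    | exact c3 (by linear_combination -h1 + h2 - h)
    | exact c3 (by linear_combination h1 - h2 + h)
    | exact c3 (by linear_combination h1 + h2 + h)
    | exact c3 (by linear_combination -h1 - h2 + h)
    | exact c3 (by linear_combination -h1 + h2 + h)

theorem lay_iff (ha : 2 ≤ a) (u v : VV a) : LayAdj a u v ↔
    (Gr a ha).Adj u v ∧ ∃ w, (Gr a ha).Adj u w ∧ (Gr a ha).Adj v w := by
  constructor
  · intro h
    exact ⟨Or.inl h, lay_triangle ha h⟩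
  · rintro ⟨h | h, w, h1, h2⟩
    · exact h
    · exact (out_no_triangle ha h w h1 h2).elim

theorem map_lay (φ : Gr a ha ≃g Gr a ha) {u v : VV a} (h : LayAdj a u v) :
    LayAdj a (φ u) (φ v) := by
  rw [lay_iff ha] at h ⊢
  obtain ⟨h1, w, h2, h3⟩ := h
  exact ⟨φ.map_adj_iff.mpr h1, φ w, φ.map_adj_iff.mpr h2, φ.map_adj_iff.mpr h3⟩

theorem map_out (φ : Gr a ha ≃g Gr a ha) {u v : VV a} (h : OutAdj a u v) :
    OutAdj a (φ u) (φ v) := by
  have h1 : (Gr a ha).Adj (φ u) (φ v) := φ.map_adj_iff.mpr (Or.inr h)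
  rcases h1 with h1 | h1
  · exfalso
    rw [lay_iff ha] at h1
    obtain ⟨-, w, h2, h3⟩ := h1
    obtain ⟨w', rfl⟩ := φ.surjective w
    exact out_no_triangle ha h w' (φ.map_adj_iff.mp h2) (φ.map_adj_iff.mp h3)
  · exact h1

/-- The layer coordinates of the image depend only on the layer. -/
theorem layer_const (φ : Gr a ha ≃g Gr a ha) (x x' : ZMod (NN a)) (j : ZMod (MM a)) (k : ℤ) :
    (φ (x, j, k)).2 = (φ (x', j, k)).2 := by
  have h1 : ∀ t : ℕ, (φ (x, j, k)).2 = (φ (x + t * p a j, j, k)).2 := by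
    intro t
    induction t with
    | zero =>
      have : x + ((0 : ℕ) : ZMod (NN a)) * p a j = x := by push_cast; ring
      rw [this]
    | succ t ih =>
      rw [ih]
      have hl : LayAdj a (x + t * p a j, j, k) (x + ((t + 1 : ℕ) : ZMod (NN a)) * p a j, j, k) := by
        refine ⟨rfl, rfl, 1, Or.inl rfl, ?_⟩
        show x + ((t + 1 : ℕ) : ZMod (NN a)) * p a j
          = x + t * p a j + ((1 : ℤ) : ZMod (NN a)) * p a j
        push_cast
        ring
      have h := map_lay φ hl
      exact Prod.ext h.1 h.2.1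
  have h2 := h1 (((p a j)⁻¹ * (x' - x)).val)
  have h3 : ((((p a j)⁻¹ * (x' - x)).val : ℕ) : ZMod (NN a)) = (p a j)⁻¹ * (x' - x) :=
    ZMod.natCast_zmod_val _
  rw [h3] at h2
  have h4 := ZMod.mul_inv_of_unit (p a j) (isUnit_p a j)
  have h5 : x + (p a j)⁻¹ * (x' - x) * p a j = x' := by
    linear_combination (x' - x) * h4
  rwa [h5] at h2

/-- The first coordinate of the image depends only on the first coordinate. -/
theorem first_const (φ : Gr a ha ≃g Gr a ha) (x : ZMod (NN a)) (j : ZMod (MM a)) (k : ℤ) :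
    (φ (x, j, k)).1 = (φ (x, 0, 0)).1 := by
  have h1 : ∀ t : ℕ, (φ (x, (t : ZMod (MM a)), k)).1 = (φ (x, 0, k)).1 := by
    intro t
    induction t with
    | zero => simp
    | succ t ih =>
      rw [← ih]
      have h : OutAdj a (x, (t : ZMod (MM a)), k) (x, ((t + 1 : ℕ) : ZMod (MM a)), k) := by
        refine ⟨rfl, Or.inl ⟨rfl, Or.inl ?_⟩⟩
        show ((t + 1 : ℕ) : ZMod (MM a)) = t + 1
        push_cast
        ring
      exact (map_out φ h).1.symm
  have h2 : ∀ k : ℤ, (φ (x, 0, k)).1 = (φ (x, 0, 0)).1 := by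
    have hstep : ∀ k : ℤ, (φ (x, 0, k)).1 = (φ (x, 0, k + 1)).1 := by
      intro k
      have h : OutAdj a (x, 0, k) (x, 0, k + 1) := ⟨rfl, Or.inr ⟨rfl, Or.inl rfl⟩⟩
      exact (map_out φ h).1
    intro k
    induction k using Int.induction_on with
    | zero => rfl
    | succ n ih => rw [← hstep, ih]
    | pred n ih =>
      rw [hstep]
      have : -(n : ℤ) - 1 + 1 = -n := by ring
      rw [this, ih]
  have h3 := h1 j.val
  rw [ZMod.natCast_zmod_val] at h3
  rw [h3, h2]

/-- Short steps go to short steps. -/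
theorem short (φ : Gr a ha ≃g Gr a ha) (x : ZMod (NN a)) (j : ZMod (MM a)) (k : ℤ) :
    (φ (x + p a j, j, k)).1 = (φ (x, j, k)).1 + p a (φ (x, j, k)).2.1 ∨
    (φ (x + p a j, j, k)).1 = (φ (x, j, k)).1 - p a (φ (x, j, k)).2.1 := by
  have hA : LayAdj a (x, j, k) (x + p a j, j, k) :=
    ⟨rfl, rfl, 1, by unfold Sm; omega, by push_cast; ring⟩
  have hB : LayAdj a (x, j, k) (x + 2 * p a j, j, k) :=
    ⟨rfl, rfl, 2, by unfold Sm; omega, by push_cast; ring⟩
  have hC : LayAdj a (x, j, k) (x - p a j, j, k) :=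
    ⟨rfl, rfl, -1, by unfold Sm; omega, by push_cast; ring⟩
  have hAB : LayAdj a (x + p a j, j, k) (x + 2 * p a j, j, k) :=
    ⟨rfl, rfl, 1, by unfold Sm; omega, by push_cast; ring⟩
  have hAC : LayAdj a (x + p a j, j, k) (x - p a j, j, k) :=
    ⟨rfl, rfl, -2, by unfold Sm; omega, by push_cast; ring⟩
  obtain ⟨-, -, α, hα, eA⟩ := map_lay φ hA
  obtain ⟨-, -, β, hβ, eB⟩ := map_lay φ hB
  obtain ⟨-, -, γ, hγ, eC⟩ := map_lay φ hC
  obtain ⟨-, -, δ, hδ, eAB⟩ := map_lay φ hAB
  obtain ⟨-, -, ε, hε, eAC⟩ := map_lay φ hAC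
  have hl := layer_const φ (x + p a j) x j k
  rw [hl] at eAB eAC
  set P := p a (φ (x, j, k)).2.1 with hP
  have hPu : IsUnit P := isUnit_p a _
  have b1 := Sm.abs_le hα
  have b2 := Sm.abs_le hβ
  have b3 := Sm.abs_le hγ
  have b4 := Sm.abs_le hδ
  have b5 := Sm.abs_le hε
  rw [abs_le] at b1 b2 b3 b4 b5
  have r1 : β = α + δ := by
    apply small_eq a ha β (α + δ) (by rw [abs_le]; omega) P hPu
    push_cast
    linear_combination eA - eB + eAB
  have r2 : γ = α + ε := by
    apply small_eq a ha γ (α + ε) (by rw [abs_le]; omega) P hPu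
    push_cast
    linear_combination eA - eC + eAC
  have r3 : β ≠ γ := by
    intro h
    have h6 : (φ (x + 2 * p a j, j, k)).1 = (φ (x - p a j, j, k)).1 := by
      rw [eB, eC, h]
    have h7 : (φ (x + 2 * p a j, j, k)).2 = (φ (x - p a j, j, k)).2 := layer_const φ _ _ j k
    have h8 := φ.injective (Prod.ext h6 h7)
    have h9 : x + 2 * p a j = x - p a j := congrArg Prod.fst h8
    have h10 := small_mul a ha 3 (by norm_num) (p a j) (isUnit_p a j)
      (by push_cast; linear_combination h9)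
    omega
  have r4 : α = 1 ∨ α = -1 := by
    unfold Sm at hα hβ hγ hδ hε
    omega
  rcases r4 with h | h
  · left
    rw [eA, h]
    push_cast
    ring
  · right
    rw [eA, h]
    push_cast
    ring

/-- The first coordinate map is affine. -/
theorem affine (φ : Gr a ha ≃g Gr a ha) :
    ∃ c b : ZMod (NN a), (c = p a (φ (0, 0, 0)).2.1 ∨ c = -p a (φ (0, 0, 0)).2.1) ∧
      ∀ x, (φ (x, 0, 0)).1 = c * x + b := by
  have hp0 : p a 0 = 1 := by simp [p]
  have hs := fun x => short φ x 0 0
  rw [hp0] at hs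
  have hl : ∀ x, (φ (x, 0, 0)).2 = (φ (0, 0, 0)).2 := fun x => layer_const φ x 0 0 0
  simp only [hl] at hs
  set P := p a (φ (0, 0, 0)).2.1 with hP
  have hPu : IsUnit P := isUnit_p a _
  have hconst : ∀ x, (φ (x + 1 + 1, 0, 0)).1 - (φ (x + 1, 0, 0)).1
      = (φ (x + 1, 0, 0)).1 - (φ (x, 0, 0)).1 := by
    intro x
    have hne : (φ (x + 1 + 1, 0, 0)).1 ≠ (φ (x, 0, 0)).1 := by
      intro h
      have h7 : (φ (x + 1 + 1, 0, 0)).2 = (φ (x, 0, 0)).2 := layer_const φ _ _ 0 0
      have h8 := φ.injective (Prod.ext h h7)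
      have h9 : x + 1 + 1 = x := congrArg Prod.fst h8
      have h10 := small_mul a ha 2 (by norm_num) 1 isUnit_one
        (by push_cast; linear_combination h9)
      omega
    rcases hs x with h1 | h1 <;> rcases hs (x + 1) with h2 | h2
    · rw [h2, h1]; ring
    · exact (hne (by rw [h2, h1]; ring)).elim
    · exact (hne (by rw [h2, h1]; ring)).elim
    · rw [h2, h1]; ring
  refine ⟨(φ (1, 0, 0)).1 - (φ (0, 0, 0)).1, (φ (0, 0, 0)).1, ?_, ?_⟩
  · have := hs 0
    rw [zero_add] at this
    rcases this with h | h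
    · left; rw [h]; ring
    · right; rw [h]; ring
  · have hstep : ∀ t : ℕ, (φ ((t : ZMod (NN a)) + 1, 0, 0)).1 - (φ ((t : ZMod (NN a)), 0, 0)).1
        = (φ (1, 0, 0)).1 - (φ (0, 0, 0)).1 := by
      intro t
      induction t with
      | zero => simp
      | succ t ih =>
        rw [← ih]
        have := hconst (t : ZMod (NN a))
        push_cast
        exact this
    have hall : ∀ t : ℕ, (φ ((t : ZMod (NN a)), 0, 0)).1
        = ((φ (1, 0, 0)).1 - (φ (0, 0, 0)).1) * t + (φ (0, 0, 0)).1 := by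
      intro t
      induction t with
      | zero => simp
      | succ t ih =>
        have := hstep t
        push_cast
        linear_combination this + ih
    intro x
    have := hall x.val
    rwa [ZMod.natCast_zmod_val] at this

/-- Every automorphism is `(x, j, k) ↦ (c x + b, j + i, e k + t)` with `c = ± 2^i`, `e = ± 1`. -/
theorem classify (φ : Gr a ha ≃g Gr a ha) :
    ∃ (c b : ZMod (NN a)) (i : ZMod (MM a)) (e t : ℤ), (c = p a i ∨ c = -p a i) ∧
      (e = 1 ∨ e = -1) ∧ ∀ x j k, φ (x, j, k) = (c * x + b, j + i, e * k + t) := by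
  obtain ⟨c, b, hc, hx⟩ := affine φ
  set i := (φ (0, 0, 0)).2.1 with hi
  have hX : ∀ x j k, (φ (x, j, k)).1 = c * x + b := by
    intro x j k
    rw [first_const, hx]
  -- the j-coordinate
  have hJ : ∀ x j k, (φ (x, j, k)).2.1 = j + i := by
    intro x j k
    have h1 := short φ x j k
    rw [hX, hX] at h1
    have h2 : p a (φ (x, j, k)).2.1 = c * p a j ∨ p a (φ (x, j, k)).2.1 = -(c * p a j) := by
      rcases h1 with h1 | h1
      · left; linear_combination -h1
      · right; linear_combination h1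
    have h3 := p_add a i j
    symm
    rw [add_comm]
    apply p_inj
    rcases hc with hc | hc <;> rcases h2 with h2 | h2 <;> rcases h3 with h3 | h3 <;>
      rw [hc] at h2 <;> rw [h2, h3] <;> first | (left; ring1) | (right; ring1)
  -- the k-coordinate
  have hK1 : ∀ x j k, (φ (x, j, k)).2.2 = (φ (0, 0, k)).2.2 := by
    have h1 : ∀ (t : ℕ) k, (φ (0, (t : ZMod (MM a)), k)).2.2 = (φ (0, 0, k)).2.2 := by
      intro t k
      induction t with
      | zero => simp
      | succ t ih =>
        rw [← ih]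
        have h : OutAdj a (0, (t : ZMod (MM a)), k) (0, ((t + 1 : ℕ) : ZMod (MM a)), k) := by
          refine ⟨rfl, Or.inl ⟨rfl, Or.inl ?_⟩⟩
          show ((t + 1 : ℕ) : ZMod (MM a)) = t + 1
          push_cast
          ring
        rcases (map_out φ h).2 with h2 | h2
        · exact h2.1.symm
        · exfalso
          have h3 := h2.1
          rw [hJ, hJ] at h3
          push_cast at h3
          exact succ_ne a ha (t : ZMod (MM a)) (by linear_combination -h3)
    intro x j k
    have h2 := layer_const φ x 0 j k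
    rw [h2]
    have h3 := h1 j.val k
    rwa [ZMod.natCast_zmod_val] at h3
  set κ : ℤ → ℤ := fun k => (φ (0, 0, k)).2.2 with hκ
  have hstep : ∀ k, κ (k + 1) = κ k + 1 ∨ κ (k + 1) = κ k - 1 := by
    intro k
    have h : OutAdj a (0, 0, k) (0, 0, k + 1) := ⟨rfl, Or.inr ⟨rfl, Or.inl rfl⟩⟩
    rcases (map_out φ h).2 with ⟨h1, h2⟩ | ⟨h1, h2⟩
    · exfalso
      rw [hJ, hJ] at h2
      have : (0 : ZMod (MM a)) + 1 = 0 := by
        rcases h2 with h2 | h2
        · linear_combination -h2
        · linear_combination -h2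
      exact succ_ne a ha 0 this
    · rcases h2 with h2 | h2
      · left; exact h2
      · right
        show (φ (0, 0, k + 1)).2.2 = (φ (0, 0, k)).2.2 - 1
        omega
  have hinj : Function.Injective κ := by
    intro k l h
    have h1 : φ (0, 0, k) = φ (0, 0, l) := by
      refine Prod.ext ?_ (Prod.ext ?_ h)
      · rw [hX, hX]
      · rw [hJ, hJ]
    have h2 := φ.injective h1
    simpa using h2
  have hconst : ∀ k, κ (k + 1 + 1) - κ (k + 1) = κ (k + 1) - κ k := by
    intro k
    have h1 := hstep k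
    have h2 := hstep (k + 1)
    have h3 : κ (k + 1 + 1) ≠ κ k := fun h => by
      have := hinj h
      omega
    omega
  have hdiff : ∀ k, κ (k + 1) - κ k = κ 1 - κ 0 := by
    intro k
    induction k using Int.induction_on with
    | zero => simp
    | succ n ih => rw [← ih]; exact hconst n
    | pred n ih =>
      have h := hconst (-(n : ℤ) - 1)
      have e1 : -(n : ℤ) - 1 + 1 = -n := by ring
      rw [e1] at h ⊢
      omega
  have hlin : ∀ k, κ k = (κ 1 - κ 0) * k + κ 0 := by
    intro k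
    induction k using Int.induction_on with
    | zero => simp
    | succ n ih =>
      have h := hdiff n
      linear_combination h + ih
    | pred n ih =>
      have h := hdiff (-(n : ℤ) - 1)
      have e1 : -(n : ℤ) - 1 + 1 = -n := by ring
      rw [e1] at h
      linear_combination ih - h
  refine ⟨c, b, i, κ 1 - κ 0, κ 0, hc, ?_, ?_⟩
  · have := hstep 0
    rw [zero_add] at this
    omega
  · intro x j k
    refine Prod.ext (hX x j k) (Prod.ext (hJ x j k) ?_)
    show (φ (x, j, k)).2.2 = _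
    rw [hK1]
    exact hlin k

end Pool.Agent.R42.E6
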