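import Mathlib

/-!
# Definitions for MP_e6b5d0_co

Rays, ends, vertex-transitivity, `n`-Cayley graphs.
-/

namespace Pool.Agent.R42.E6

/-- A ray (one-way infinite path) of a graph. -/
structure Ray {V : Type} (G : SimpleGraph V) where
  toFun : ℕ → V
  inj : Function.Injective toFun
  adj : ∀ n, G.Adj (toFun n) (toFun (n + 1))

/-- Two rays are equivalent when no finite vertex set separates their tails: for every finite set
`S` of vertices, far enough along the rays any vertex of the first is joined to any vertex of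
the second by a walk that avoids `S`. -/
def RayEquiv {V : Type} (G : SimpleGraph V) (r s : Ray G) : Prop :=
  ∀ S : Set V, S.Finite → ∃ n : ℕ, ∀ i ≥ n, ∀ j ≥ n,
    ∃ w : G.Walk (r.toFun i) (s.toFun j), ∀ v ∈ w.support, v ∉ S

theorem eventually_not_mem {V : Type} {G : SimpleGraph V} (r : Ray G) (S : Set V)
    (hS : S.Finite) : ∃ n : ℕ, ∀ i ≥ n, r.toFun i ∉ S := by
  have h1 : (r.toFun ⁻¹' S).Finite := hS.preimage (r.inj.injOn)
  obtain ⟨M, hM⟩ := h1.bddAbove
  refine ⟨M + 1, fun i hi hmem => ?_⟩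
  have := hM (show i ∈ r.toFun ⁻¹' S from hmem)
  omega

theorem ray_walk {V : Type} {G : SimpleGraph V} (r : Ray G) (S : Set V) (n : ℕ)
    (hn : ∀ i ≥ n, r.toFun i ∉ S) (i : ℕ) (hi : n ≤ i) (d : ℕ) :
    ∃ w : G.Walk (r.toFun i) (r.toFun (i + d)), ∀ v ∈ w.support, v ∉ S := by
  induction d with
  | zero =>
    refine ⟨SimpleGraph.Walk.nil, ?_⟩
    intro v hv
    simp only [SimpleGraph.Walk.support_nil, List.mem_singleton] at hv
    rw [hv]
    exact hn i hi
  | succ d ih =>
    obtain ⟨w, hw⟩ := ih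
    refine ⟨w.append (SimpleGraph.Walk.cons (r.adj (i + d)) SimpleGraph.Walk.nil), ?_⟩
    intro v hv
    rw [SimpleGraph.Walk.mem_support_append_iff] at hv
    rcases hv with hv | hv
    · exact hw v hv
    · simp only [SimpleGraph.Walk.support_cons, SimpleGraph.Walk.support_nil, List.mem_cons,
        List.not_mem_nil, or_false] at hv
      rcases hv with rfl | rfl
      · exact hn _ (by omega)
      · exact hn _ (by omega)

/-- The setoid of rays. -/
def raySetoid {V : Type} (G : SimpleGraph V) : Setoid (Ray G) where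
  r := RayEquiv G
  iseqv := by
    refine ⟨?_, ?_, ?_⟩
    · intro r S hS
      obtain ⟨n, hn⟩ := eventually_not_mem r S hS
      refine ⟨n, fun i hi j hj => ?_⟩
      rcases le_total i j with h | h
      · obtain ⟨d, rfl⟩ := Nat.exists_eq_add_of_le h
        exact ray_walk r S n hn i hi d
      · obtain ⟨d, rfl⟩ := Nat.exists_eq_add_of_le h
        obtain ⟨w, hw⟩ := ray_walk r S n hn j hj d
        refine ⟨w.reverse, fun v hv => hw v ?_⟩
        simpa using hv
    · intro r s h S hS
      obtain ⟨n, hn⟩ := h S hS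
      refine ⟨n, fun i hi j hj => ?_⟩
      obtain ⟨w, hw⟩ := hn j hj i hi
      refine ⟨w.reverse, fun v hv => hw v ?_⟩
      simpa using hv
    · intro r s t h1 h2 S hS
      obtain ⟨n1, hn1⟩ := h1 S hS
      obtain ⟨n2, hn2⟩ := h2 S hS
      refine ⟨max n1 n2, fun i hi j hj => ?_⟩
      obtain ⟨w1, hw1⟩ := hn1 i (le_trans (le_max_left _ _) hi) (max n1 n2) (le_max_left _ _)
      obtain ⟨w2, hw2⟩ := hn2 (max n1 n2) (le_max_right _ _) j (le_trans (le_max_right _ _) hj)
      refine ⟨w1.append w2, fun v hv => ?_⟩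
      rw [SimpleGraph.Walk.mem_support_append_iff] at hv
      rcases hv with hv | hv
      · exact hw1 v hv
      · exact hw2 v hv

/-- The ends of a graph: equivalence classes of rays. -/
def Ends {V : Type} (G : SimpleGraph V) : Type := Quotient (raySetoid G)

/-- Exactly two ends. -/
def TwoEnded {V : Type} (G : SimpleGraph V) : Prop := ENat.card (Ends G) = 2

/-- Every vertex has exactly `k` neighbours. -/
def Regular {V : Type} (G : SimpleGraph V) (k : ℕ) : Prop :=
  ∀ v, (G.neighborSet v).encard = k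

/-- `Aut(G)` acts transitively on the vertices. -/
def VertexTransitive {V : Type} (G : SimpleGraph V) : Prop :=
  ∀ u v : V, ∃ φ : G ≃g G, φ u = v

/-- The orbit equivalence relation of a group of automorphisms on the vertex set. -/
def orbitSetoid {V : Type} {G : SimpleGraph V} (Γ : Subgroup (G ≃g G)) : Setoid V where
  r u v := ∃ φ ∈ Γ, φ u = v
  iseqv := by
    refine ⟨?_, ?_, ?_⟩
    · intro u
      exact ⟨1, Γ.one_mem, rfl⟩
    · rintro u v ⟨φ, hφ, h⟩
      refine ⟨φ⁻¹, Γ.inv_mem hφ, ?_⟩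
      rw [← h]
      exact RelIso.inv_apply_self φ u
    · rintro u v w ⟨φ, hφ, h⟩ ⟨ψ, hψ, h'⟩
      refine ⟨ψ * φ, Γ.mul_mem hψ hφ, ?_⟩
      rw [RelIso.mul_apply, h, h']

/-- A subgroup of `Aut(G)` acts freely: only the identity fixes a vertex. -/
def ActsFreely {V : Type} {G : SimpleGraph V} (Γ : Subgroup (G ≃g G)) : Prop :=
  ∀ φ ∈ Γ, ∀ v : V, φ v = v → φ = 1

/-- `G` is `n`-Cayley: some subgroup of `Aut(G)` acts freely with exactly `n` orbits. -/
def NCayley {V : Type} (G : SimpleGraph V) (n : ℕ) : Prop :=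
  ∃ Γ : Subgroup (G ≃g G), ActsFreely Γ ∧ ENat.card (Quotient (orbitSetoid Γ)) = n

end Pool.Agent.R42.E6
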