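import Pool.Agent.R42.E6.Defs

/-!
# The graph of MP_e6b5d0_co
-/

namespace Pool.Agent.R42.E6

/-- `N = 2^(2^a) + 1`. -/
abbrev NN (a : ℕ) : ℕ := 2 ^ (2 ^ a) + 1
/-- `m = 2^a`. -/
abbrev MM (a : ℕ) : ℕ := 2 ^ a

/-- vertices -/
abbrev VV (a : ℕ) : Type := ZMod (NN a) × ZMod (MM a) × ℤ

instance instNeMM (a : ℕ) : NeZero (MM a) := ⟨by positivity⟩
instance instNeNN (a : ℕ) : NeZero (NN a) := ⟨by positivity⟩

/-- `2^j`. -/
def p (a : ℕ) (j : ZMod (MM a)) : ZMod (NN a) := 2 ^ j.val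

theorem two_pow_MM (a : ℕ) : (2 : ZMod (NN a)) ^ (MM a) = -1 := by
  have h : ((NN a : ℕ) : ZMod (NN a)) = 0 := ZMod.natCast_self _
  have h2 : ((2 ^ (2 ^ a) + 1 : ℕ) : ZMod (NN a)) = 2 ^ (MM a) + 1 := by
    rw [Nat.cast_add, Nat.cast_pow, Nat.cast_one, Nat.cast_ofNat]
  have h3 : ((2 ^ (2 ^ a) + 1 : ℕ) : ZMod (NN a)) = 0 := h
  rw [h2] at h3
  linear_combination h3

theorem p_add (a : ℕ) (i j : ZMod (MM a)) :
    p a (i + j) = p a i * p a j ∨ p a (i + j) = -(p a i * p a j) := by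
  unfold p
  have hv : (i + j).val = (i.val + j.val) % (MM a) := ZMod.val_add i j
  have hi := ZMod.val_lt i
  have hj := ZMod.val_lt j
  rw [hv, ← pow_add]
  rcases Nat.lt_or_ge (i.val + j.val) (MM a) with h | h
  · left
    rw [Nat.mod_eq_of_lt h]
  · right
    have h3 : (i.val + j.val) % (MM a) = i.val + j.val - MM a := by
      rw [Nat.mod_eq_sub_mod h, Nat.mod_eq_of_lt (by omega)]
    rw [h3]
    have h4 : i.val + j.val = (i.val + j.val - MM a) + MM a := by omega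
    conv_rhs => rw [h4, pow_add, two_pow_MM]
    ring

theorem isUnit_two (a : ℕ) : IsUnit (2 : ZMod (NN a)) := by
  have h := two_pow_MM a
  have h2 : (2 : ZMod (NN a)) * (-(2 ^ (MM a - 1))) = 1 := by
    have h3 : MM a = (MM a - 1) + 1 := by
      have : 0 < MM a := by unfold MM; positivity
      omega
    rw [h3, pow_succ] at h
    linear_combination -h
  exact IsUnit.of_mul_eq_one _ h2

theorem isUnit_p (a : ℕ) (j : ZMod (MM a)) : IsUnit (p a j) := (isUnit_two a).pow _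

theorem small_cast (a : ℕ) (ha : 2 ≤ a) (z : ℤ) (hz : |z| ≤ 16) (h : (z : ZMod (NN a)) = 0) :
    z = 0 := by
  rw [ZMod.intCast_zmod_eq_zero_iff_dvd] at h
  by_contra hne
  have h1 := Int.le_of_dvd (abs_pos.mpr hne) ((dvd_abs _ _).mpr h)
  have h2 : 4 ≤ 2 ^ a := by
    calc 4 = 2 ^ 2 := by norm_num
      _ ≤ 2 ^ a := Nat.pow_le_pow_right (by norm_num) ha
  have h3 : 16 ≤ 2 ^ (2 ^ a) := by
    calc 16 = 2 ^ 4 := by norm_num
      _ ≤ 2 ^ (2 ^ a) := Nat.pow_le_pow_right (by norm_num) h2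
  have h4 : ((NN a : ℕ) : ℤ) ≥ 17 := by
    have : NN a ≥ 17 := by unfold NN; omega
    exact_mod_cast this
  omega

theorem small_mul (a : ℕ) (ha : 2 ≤ a) (z : ℤ) (hz : |z| ≤ 16) (u : ZMod (NN a)) (hu : IsUnit u)
    (h : (z : ZMod (NN a)) * u = 0) : z = 0 := by
  apply small_cast a ha z hz
  obtain ⟨u', rfl⟩ := hu
  simpa using h

theorem small_eq (a : ℕ) (ha : 2 ≤ a) (z w : ℤ) (hz : |z - w| ≤ 16) (u : ZMod (NN a))
    (hu : IsUnit u) (h : (z : ZMod (NN a)) * u = w * u) : z = w := by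
  have := small_mul a ha (z - w) hz u hu (by push_cast; linear_combination h)
  omega

/-- `p j = ± p j'` forces `j = j'`. -/
theorem p_inj (a : ℕ) (j j' : ZMod (MM a)) (h : p a j = p a j' ∨ p a j = -p a j') : j = j' := by
  have hlt : ∀ j : ZMod (MM a), 2 * 2 ^ j.val ≤ 2 ^ (MM a) := by
    intro j
    calc 2 * 2 ^ j.val = 2 ^ (j.val + 1) := by ring
      _ ≤ 2 ^ (MM a) := Nat.pow_le_pow_right (by norm_num) (ZMod.val_lt j)
  have h1 : 2 * 2 ^ j.val ≤ 2 ^ (2 ^ a) := hlt j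
  have h2 : 2 * 2 ^ j'.val ≤ 2 ^ (2 ^ a) := hlt j'
  have hpos1 : 0 < 2 ^ j.val := by positivity
  have hpos2 : 0 < 2 ^ j'.val := by positivity
  have key : 2 ^ j.val = 2 ^ j'.val := by
    rcases h with h | h
    · have h3 : (((2 ^ j.val : ℕ) : ℕ) : ZMod (NN a)) = ((2 ^ j'.val : ℕ) : ZMod (NN a)) := by
        push_cast
        exact h
      rw [ZMod.natCast_eq_natCast_iff'] at h3
      rwa [Nat.mod_eq_of_lt (by unfold NN; omega), Nat.mod_eq_of_lt (by unfold NN; omega)] at h3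
    · exfalso
      have h3 : (((2 ^ j.val + 2 ^ j'.val : ℕ) : ℕ) : ZMod (NN a)) = 0 := by
        push_cast
        unfold p at h
        rw [h]
        ring
      rw [ZMod.natCast_eq_zero_iff] at h3
      have := Nat.le_of_dvd (by omega) h3
      unfold NN at this
      omega
  have h5 : j.val = j'.val := Nat.pow_right_injective (le_refl 2) key
  exact ZMod.val_injective _ h5

/-- differences inside a layer -/
def Sm (z : ℤ) : Prop := z = 1 ∨ z = -1 ∨ z = 2 ∨ z = -2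

theorem Sm.neg {z : ℤ} (h : Sm z) : Sm (-z) := by
  unfold Sm at *
  omega

/-- adjacency inside a layer -/
def LayAdj (a : ℕ) (u v : VV a) : Prop :=
  u.2.1 = v.2.1 ∧ u.2.2 = v.2.2 ∧ ∃ z : ℤ, Sm z ∧ v.1 = u.1 + z * p a u.2.1

/-- spokes and axis edges -/
def OutAdj (a : ℕ) (u v : VV a) : Prop :=
  u.1 = v.1 ∧ ((u.2.2 = v.2.2 ∧ (v.2.1 = u.2.1 + 1 ∨ u.2.1 = v.2.1 + 1)) ∨
    (u.2.1 = v.2.1 ∧ (v.2.2 = u.2.2 + 1 ∨ u.2.2 = v.2.2 + 1)))

theorem one_ne (a : ℕ) (ha : 2 ≤ a) (n : ℕ) (hn : 0 < n) (hn3 : n < 4) :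
    ((n : ℕ) : ZMod (MM a)) ≠ 0 := by
  intro h
  rw [ZMod.natCast_eq_zero_iff] at h
  have h1 := Nat.le_of_dvd hn h
  have h2 : 4 ≤ 2 ^ a := by
    calc 4 = 2 ^ 2 := by norm_num
      _ ≤ 2 ^ a := Nat.pow_le_pow_right (by norm_num) ha
  unfold MM at h1
  omega

/-- The graph. -/
def Gr (a : ℕ) (ha : 2 ≤ a) : SimpleGraph (VV a) where
  Adj u v := LayAdj a u v ∨ OutAdj a u v
  symm := by
    constructor
    rintro u v (⟨h1, h2, z, hz, h3⟩ | ⟨h1, h⟩)
    · left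
      refine ⟨h1.symm, h2.symm, -z, hz.neg, ?_⟩
      rw [h3, h1]
      push_cast
      ring
    · right
      refine ⟨h1.symm, ?_⟩
      rcases h with ⟨h2, h3⟩ | ⟨h2, h3⟩
      · exact Or.inl ⟨h2.symm, h3.symm⟩
      · exact Or.inr ⟨h2.symm, h3.symm⟩
  loopless := by
    constructor
    rintro u (⟨-, -, z, hz, h3⟩ | ⟨-, h⟩)
    · have h4 : (z : ZMod (NN a)) * p a u.2.1 = 0 := by linear_combination -h3
      have := small_mul a ha z (by unfold Sm at hz; rcases hz with rfl | rfl | rfl | rfl <;> norm_num)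
        _ (isUnit_p a _) h4
      unfold Sm at hz
      omega
    · rcases h with ⟨-, h | h⟩ | ⟨-, h | h⟩
      · have : ((1 : ℕ) : ZMod (MM a)) = 0 := by push_cast; linear_combination -h
        exact one_ne a ha 1 (by norm_num) (by norm_num) this
      · have : ((1 : ℕ) : ZMod (MM a)) = 0 := by push_cast; linear_combination -h
        exact one_ne a ha 1 (by norm_num) (by norm_num) this
      · omega
      · omega

end Pool.Agent.R42.E6
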