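import Pool.Agent.R42.E6.Class

/-!
# Free subgroups of the automorphism group have many orbits
-/

namespace Pool.Agent.R42.E6

variable {a : ℕ} {ha : 2 ≤ a}

/-- `φ` acts by `j ↦ j + i` on the second coordinate and trivially on the third. -/
def Lev (φ : Gr a ha ≃g Gr a ha) (i : ZMod (MM a)) : Prop :=
  ∀ x j k, (φ (x, j, k)).2.1 = j + i ∧ (φ (x, j, k)).2.2 = k

theorem Lev.sq {φ : Gr a ha ≃g Gr a ha} {i : ZMod (MM a)} (h : Lev φ i) : Lev (φ * φ) (i + i) := by
  intro x j k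
  rw [RelIso.mul_apply]
  obtain ⟨h1, h2⟩ := h x j k
  have h3 := h (φ (x, j, k)).1 (φ (x, j, k)).2.1 (φ (x, j, k)).2.2
  refine ⟨?_, ?_⟩
  · have : (φ (φ (x, j, k))).2.1 = (φ (x, j, k)).2.1 + i := h3.1
    rw [this, h1]
    ring
  · have : (φ (φ (x, j, k))).2.2 = (φ (x, j, k)).2.2 := h3.2
    rw [this, h2]

theorem half_val (y : ZMod (MM a)) (hy : y ≠ 0) (hyy : y + y = 0) : 2 * y.val = MM a := by
  have h1 := ZMod.val_lt y
  have h2 : y.val ≠ 0 := by
    intro h
    exact hy ((ZMod.val_eq_zero y).mp h)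
  have h3 : ((y.val + y.val : ℕ) : ZMod (MM a)) = 0 := by
    push_cast
    rw [ZMod.natCast_zmod_val]
    exact hyy
  rw [ZMod.natCast_eq_zero_iff] at h3
  obtain ⟨q, hq⟩ := h3
  have h4 : q = 1 := by
    have hpos : 0 < MM a := by unfold MM; positivity
    rcases Nat.lt_or_ge q 1 with h | h
    · have : q = 0 := by omega
      subst this
      omega
    · rcases Nat.lt_or_ge q 2 with h' | h'
      · omega
      · exfalso
        have : MM a * 2 ≤ MM a * q := Nat.mul_le_mul_left _ h'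
        omega
  subst h4
  omega

/-- In a free group, an element preserving every slice does not rotate the layers. -/
theorem no_rot_aux (Γ : Subgroup (Gr a ha ≃g Gr a ha)) (hΓ : ActsFreely Γ)
    (φ : Gr a ha ≃g Gr a ha) (hφ : φ ∈ Γ) (i : ZMod (MM a)) (hL : Lev φ i) (hii : i + i = 0) :
    i = 0 := by
  by_contra hi
  have hv := half_val i hi hii
  obtain ⟨c, b, i', e, t, hc, he, hall⟩ := classify φ
  have hi' : i' = i := by
    have h1 := (hL 0 0 0).1
    rw [hall] at h1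
    simpa using h1
  subst hi'
  have ht : t = 0 := by
    have h1 := (hL 0 0 0).2
    rw [hall] at h1
    simpa using h1
  subst ht
  have he1 : e = 1 := by
    have h1 := (hL 0 0 1).2
    rw [hall] at h1
    simpa using h1
  subst he1
  have hc2 : c * c = -1 := by
    have h1 : p a i' * p a i' = -1 := by
      unfold p
      rw [← pow_add, ← two_mul, hv, two_pow_MM]
    rcases hc with rfl | rfl
    · exact h1
    · rw [neg_mul_neg]; exact h1
  -- the square is `x ↦ -x + b'`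
  have hsq : ∀ x j k, (φ * φ) (x, j, k) = (-x + (c * b + b), j, k) := by
    intro x j k
    rw [RelIso.mul_apply, hall, hall]
    refine Prod.ext ?_ (Prod.ext ?_ ?_)
    · show c * (c * x + b) + b = -x + (c * b + b)
      linear_combination x * hc2
    · show j + i' + i' = j
      linear_combination hii
    · show 1 * (1 * k + 0) + 0 = k
      ring
  obtain ⟨u, hu⟩ := isUnit_two a
  set x0 : ZMod (NN a) := (↑(u⁻¹) : ZMod (NN a)) * (c * b + b) with hx0
  have h2x : 2 * x0 = c * b + b := by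
    rw [hx0, ← hu, ← mul_assoc, Units.mul_inv, one_mul]
  have hfix : (φ * φ) (x0, 0, 0) = (x0, 0, 0) := by
    rw [hsq]
    refine Prod.ext ?_ rfl
    show -x0 + (c * b + b) = x0
    linear_combination -h2x
  have hone := hΓ (φ * φ) (Γ.mul_mem hφ hφ) _ hfix
  have h3 := hsq (x0 + 1) 0 0
  rw [hone] at h3
  have h4 : x0 + 1 = -(x0 + 1) + (c * b + b) := congrArg Prod.fst h3
  have h5 := small_mul a ha 2 (by norm_num) 1 isUnit_one
    (by push_cast; linear_combination h4 - h2x)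
  omega

theorem no_rot (Γ : Subgroup (Gr a ha ≃g Gr a ha)) (hΓ : ActsFreely Γ) :
    ∀ (n : ℕ) (φ : Gr a ha ≃g Gr a ha), φ ∈ Γ → ∀ i : ZMod (MM a), Lev φ i →
      ((2 ^ n : ℕ) : ZMod (MM a)) * i = 0 → i = 0 := by
  intro n
  induction n with
  | zero =>
    intro φ _ i _ h
    simpa using h
  | succ n ih =>
    intro φ hφ i hL h
    have h1 : i + i = 0 := by
      apply ih (φ * φ) (Γ.mul_mem hφ hφ) (i + i) hL.sq
      rw [← h]
      push_cast
      ring
    exact no_rot_aux Γ hΓ φ hφ i hL h1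

theorem no_rot' (Γ : Subgroup (Gr a ha ≃g Gr a ha)) (hΓ : ActsFreely Γ)
    (φ : Gr a ha ≃g Gr a ha) (hφ : φ ∈ Γ) (i : ZMod (MM a)) (hL : Lev φ i) : i = 0 := by
  apply no_rot Γ hΓ a φ hφ i hL
  have : ((2 ^ a : ℕ) : ZMod (MM a)) = 0 := ZMod.natCast_self (MM a)
  rw [this, zero_mul]

/-- An element of `Γ` that maps `(0, j, 0)` to `(0, j', 0)` with `j' ≠ j` reverses the line. -/
theorem reverses (Γ : Subgroup (Gr a ha ≃g Gr a ha)) (hΓ : ActsFreely Γ)
    (φ : Gr a ha ≃g Gr a ha) (hφ : φ ∈ Γ) (j j' : ZMod (MM a)) (hne : j ≠ j')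
    (h : φ (0, j, 0) = (0, j', 0)) :
    ∀ x y k, (φ (x, y, k)).2.1 = y + (j' - j) ∧ (φ (x, y, k)).2.2 = -k := by
  obtain ⟨c, b, i, e, t, hc, he, hall⟩ := classify φ
  rw [hall] at h
  have h1 : j + i = j' := congrArg (fun v => v.2.1) h
  have h2 : e * 0 + t = 0 := congrArg (fun v => v.2.2) h
  have ht : t = 0 := by linarith
  subst ht
  have hi : i = j' - j := by linear_combination h1
  have he' : e = -1 := by
    rcases he with he | he
    · exfalso
      have hL : Lev φ i := by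
        intro x y k
        rw [hall, he]
        exact ⟨rfl, by show 1 * k + 0 = k; ring⟩
      have := no_rot' Γ hΓ φ hφ i hL
      apply hne
      rw [this] at h1
      simpa using h1
    · exact he
  intro x y k
  rw [hall, he', ← hi]
  refine ⟨rfl, ?_⟩
  show -1 * k + 0 = -k
  ring

theorem at_most_two (Γ : Subgroup (Gr a ha ≃g Gr a ha)) (hΓ : ActsFreely Γ)
    (j j1 j2 : ZMod (MM a)) (h1 : j ≠ j1) (h2 : j ≠ j2)
    (r1 : ∃ φ ∈ Γ, φ (0, j, 0) = (0, j1, 0)) (r2 : ∃ φ ∈ Γ, φ (0, j, 0) = (0, j2, 0)) :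
    j1 = j2 := by
  obtain ⟨φ, hφ, e1⟩ := r1
  obtain ⟨ψ, hψ, e2⟩ := r2
  have f1 := reverses Γ hΓ φ hφ j j1 h1 e1
  have f2 := reverses Γ hΓ ψ hψ j j2 h2 e2
  have hL : Lev (ψ * φ) ((j2 - j) + (j1 - j)) := by
    intro x y k
    rw [RelIso.mul_apply]
    have g1 := f1 x y k
    have g2 := f2 (φ (x, y, k)).1 (φ (x, y, k)).2.1 (φ (x, y, k)).2.2
    have g3 : (ψ (φ (x, y, k))).2.1 = (φ (x, y, k)).2.1 + (j2 - j) := g2.1
    have g4 : (ψ (φ (x, y, k))).2.2 = -(φ (x, y, k)).2.2 := g2.2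
    rw [g3, g4, g1.1, g1.2]
    constructor <;> ring
  have h3 := no_rot' Γ hΓ _ (Γ.mul_mem hψ hφ) _ hL
  have hL1 : Lev (φ * φ) ((j1 - j) + (j1 - j)) := by
    intro x y k
    rw [RelIso.mul_apply]
    have g1 := f1 x y k
    have g2 := f1 (φ (x, y, k)).1 (φ (x, y, k)).2.1 (φ (x, y, k)).2.2
    have g3 : (φ (φ (x, y, k))).2.1 = (φ (x, y, k)).2.1 + (j1 - j) := g2.1
    have g4 : (φ (φ (x, y, k))).2.2 = -(φ (x, y, k)).2.2 := g2.2
    rw [g3, g4, g1.1, g1.2]
    constructor <;> ring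
  have h4 := no_rot' Γ hΓ _ (Γ.mul_mem hφ hφ) _ hL1
  linear_combination h4 - h3

theorem many_orbits (n : ℕ) (hn : 2 * n < MM a) (Γ : Subgroup (Gr a ha ≃g Gr a ha))
    (hΓ : ActsFreely Γ) : (n : ℕ∞) < ENat.card (Quotient (orbitSetoid Γ)) := by
  classical
  by_contra hle
  rw [not_lt] at hle
  have hfin : Finite (Quotient (orbitSetoid Γ)) := by
    rw [← ENat.card_lt_top]
    exact lt_of_le_of_lt hle (ENat.coe_lt_top n)
  haveI := Fintype.ofFinite (Quotient (orbitSetoid Γ))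
  have hcard : Fintype.card (Quotient (orbitSetoid Γ)) ≤ n := by
    rw [ENat.card_eq_coe_fintype_card] at hle
    exact_mod_cast hle
  let q : ZMod (MM a) → Quotient (orbitSetoid Γ) :=
    fun j => Quotient.mk (orbitSetoid Γ) ((0, j, 0) : VV a)
  have hfib : ∀ y ∈ (Finset.univ : Finset (Quotient (orbitSetoid Γ))),
      (Finset.univ.filter fun j => q j = y).card ≤ 2 := by
    intro y _
    by_contra h
    rw [not_le, Finset.two_lt_card] at h
    obtain ⟨j, hj, j1, hj1, j2, hj2, h1, h2, h3⟩ := h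
    simp only [Finset.mem_filter, Finset.mem_univ, true_and] at hj hj1 hj2
    apply h3
    refine at_most_two Γ hΓ j j1 j2 h1 h2 ?_ ?_
    · exact Quotient.exact (hj.trans hj1.symm)
    · exact Quotient.exact (hj.trans hj2.symm)
  have h := Finset.card_le_mul_card_image_of_maps_to (s := (Finset.univ : Finset (ZMod (MM a))))
    (t := Finset.univ) (f := q) (fun _ _ => Finset.mem_univ _) 2 hfib
  rw [Finset.card_univ, ZMod.card, Finset.card_univ] at h
  omega

/-- For every `n` there is a connected 8-regular vertex-transitive graph with exactly two ends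
all of whose free groups of automorphisms have more than `n` orbits. -/
theorem main (n : ℕ) : ∃ (V : Type) (G : SimpleGraph V), G.Connected ∧ Regular G 8 ∧
    VertexTransitive G ∧ TwoEnded G ∧
    ∀ Γ : Subgroup (G ≃g G), ActsFreely Γ → (n : ℕ∞) < ENat.card (Quotient (orbitSetoid Γ)) := by
  have ha : 2 ≤ n + 2 := by omega
  refine ⟨VV (n + 2), Gr (n + 2) ha, connected _ ha, regular _ ha, vertexTransitive _ ha,
    twoEnded _ ha, fun Γ hΓ => many_orbits n ?_ Γ hΓ⟩
  have h1 : n < 2 ^ n := Nat.lt_two_pow_self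
  unfold MM
  rw [pow_add]
  omega

end Pool.Agent.R42.E6
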